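import Mathlib

/-!
# A combination with rational products is rational (job ZI3-RAT, project ZI of helper121)
-/

set_option autoImplicit false

namespace Pool.Agent.Y67.ZI

theorem rat {K V : Type*} [Field K] [CharZero K] [AddCommGroup V] [Module K V]
    [FiniteDimensional K V] (G : AddSubgroup V) (B : V →ₗ[K] V →ₗ[K] K)
    (hB : ∀ x ∈ G, ∀ y ∈ G, ∃ n : ℤ, B x y = n)
    (hnd : ∀ x ∈ Submodule.span K (G : Set V), (∀ y ∈ G, B x y = 0) → x = 0)
    (q : V) (hq : q ∈ Submodule.span K (G : Set V))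
    (hr : ∀ y ∈ G, ∃ c : ℚ, B q y = (c : K)) : ∃ n : ℕ, n ≠ 0 ∧ n • q ∈ G := by
  classical
  obtain ⟨b, hbG, hbs, hbi⟩ := exists_linearIndependent K (G : Set V)
  have hbf : b.Finite := hbi.setFinite
  let _ : Fintype b := hbf.fintype
  have hfG : ∀ i : b, (i : V) ∈ G := fun i => hbG i.2
  have hspan : Submodule.span K (Set.range (Subtype.val : b → V)) =
      Submodule.span K (G : Set V) := by
    rw [Subtype.range_coe, hbs]
  choose M hM using fun i j : b => hB i (hfG i) j (hfG j)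
  obtain ⟨MM, hMM⟩ : ∃ MM : Matrix b b ℤ, ∀ i j, MM i j = M i j := ⟨Matrix.of M, fun _ _ => rfl⟩
  obtain ⟨MK, hMKd⟩ : ∃ MK : Matrix b b K, MK = (Int.castRingHom K).mapMatrix MM := ⟨_, rfl⟩
  have hMK : ∀ i j : b, MK i j = B i j := by
    intro i j
    rw [hM i j, hMKd, RingHom.mapMatrix_apply, Matrix.map_apply, hMM]
    rfl
  have hBsum : ∀ (c : b → K) (j : b), B (∑ i, c i • (i : V)) j = Matrix.vecMul c MK j := by
    intro c j
    simp only [map_sum, map_smul, LinearMap.sum_apply, LinearMap.smul_apply, Matrix.vecMul,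
      dotProduct, smul_eq_mul, hMK]
  have hdet : MK.det ≠ 0 := by
    intro h0
    obtain ⟨v, hv, hv0⟩ := Matrix.exists_vecMul_eq_zero_iff.2 h0
    apply hv
    obtain ⟨x, hx⟩ : ∃ x : V, x = ∑ i, v i • (i : V) := ⟨_, rfl⟩
    have hxs : x ∈ Submodule.span K (G : Set V) := by
      rw [← hspan, hx]
      exact Submodule.sum_mem _ fun i _ => Submodule.smul_mem _ _ (Submodule.subset_span ⟨i, rfl⟩)
    have hx0 : x = 0 := by
      refine hnd x hxs fun y hy => ?_
      have h1 : Submodule.span K (G : Set V) ≤ LinearMap.ker (B x) := by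
        rw [← hspan, Submodule.span_le]
        rintro _ ⟨j, rfl⟩
        change B x j = 0
        rw [hx, hBsum, hv0]
        rfl
      exact h1 (Submodule.subset_span hy)
    funext i
    exact Fintype.linearIndependent_iff.1 hbi v (hx ▸ hx0) i
  obtain ⟨c, hc⟩ := (Submodule.mem_span_range_iff_exists_fun K).1 (hspan.symm ▸ hq)
  choose r hr' using fun j : b => hr j (hfG j)
  have h2 : Matrix.vecMul c MK = fun j => (r j : K) := by
    funext j
    rw [← hBsum, hc, hr']
  have h3 : ∀ i, MK.det * c i = ∑ j, (r j : K) * MK.adjugate j i := by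
    intro i
    have h4 : Matrix.vecMul (Matrix.vecMul c MK) MK.adjugate = MK.det • c := by
      rw [Matrix.vecMul_vecMul, Matrix.mul_adjugate, Matrix.vecMul_smul, Matrix.vecMul_one]
    have h5 := congrFun h4 i
    rw [h2] at h5
    simp only [Matrix.vecMul, dotProduct, Pi.smul_apply, smul_eq_mul] at h5
    exact h5.symm
  have h6 : ∀ j i, MK.adjugate j i = ((MM.adjugate j i : ℤ) : K) := by
    intro j i
    rw [hMKd, ← RingHom.map_adjugate]
    rfl
  have h7 : MK.det = ((MM.det : ℤ) : K) := by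
    rw [hMKd, ← RingHom.map_det]
    rfl
  obtain ⟨N, hNd⟩ : ∃ N : ℕ, N = ∏ j, (r j).den := ⟨_, rfl⟩
  have hN : N ≠ 0 := by
    rw [hNd]
    exact Finset.prod_ne_zero_iff.2 fun j _ => (r j).den_nz
  have h8 : ∀ j, ∃ z : ℤ, (N : K) * (r j : K) = z := by
    intro j
    obtain ⟨m, hm⟩ : (r j).den ∣ N := by
      rw [hNd]
      exact Finset.dvd_prod_of_mem (fun j => (r j).den) (Finset.mem_univ j)
    refine ⟨m * (r j).num, ?_⟩
    have h9 : (N : ℚ) * r j = ((m * (r j).num : ℤ) : ℚ) := by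
      have e : ((r j).den : ℚ) * r j = (r j).num := Rat.den_mul_eq_num (r j)
      rw [hm]
      push_cast
      linear_combination (m : ℚ) * e
    exact_mod_cast congrArg (fun x : ℚ => (x : K)) h9
  choose z hz using h8
  have h10 : ∀ i, ((N : K) * MK.det) * c i = ((∑ j, z j * MM.adjugate j i : ℤ) : K) := by
    intro i
    rw [mul_assoc, h3, Finset.mul_sum]
    push_cast
    refine Finset.sum_congr rfl fun j _ => ?_
    rw [← hz, h6, mul_assoc]
  have h11 : ((N : ℤ) * MM.det) • q ∈ G := by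
    have e : ((N : ℤ) * MM.det) • q = ∑ i : b, (∑ j, z j * MM.adjugate j i) • (i : V) := by
      rw [← hc, Finset.smul_sum]
      refine Finset.sum_congr rfl fun i _ => ?_
      rw [← Int.cast_smul_eq_zsmul K, ← Int.cast_smul_eq_zsmul K, smul_smul, ← h10, h7]
      push_cast
      rfl
    rw [e]
    exact G.sum_mem fun i _ => G.zsmul_mem (hfG i) _
  refine ⟨N * (MM.det.natAbs * MM.det.natAbs), mul_ne_zero hN (mul_ne_zero ?_ ?_), ?_⟩
  · refine Int.natAbs_ne_zero.2 fun h => hdet ?_
    rw [h7, h, Int.cast_zero]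
  · refine Int.natAbs_ne_zero.2 fun h => hdet ?_
    rw [h7, h, Int.cast_zero]
  · have e : ((N * (MM.det.natAbs * MM.det.natAbs) : ℕ) : ℤ) = MM.det * ((N : ℤ) * MM.det) := by
      rw [Nat.cast_mul, Nat.cast_mul, Int.natAbs_mul_self']
      ring
    rw [← natCast_zsmul, e, mul_smul]
    exact G.zsmul_mem h11 _

end Pool.Agent.Y67.ZI
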